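import Mathlib
import Pool.Agent.H321R2.OSI.Counter
import Pool.Agent.H321R2.OSI.Lower
import Pool.Agent.H321R2.OSI.Min

/-!
# Oblivious subspace injections of any dimension with constant excess error of the randomized SVD
-/

namespace Pool.Agent.V8H60.OSIr

open MeasureTheory Matrix Finset Pool.Agent.H321R2.OSI

variable {N k K n m r q : ℕ}

/-! ### Orthonormal matrices for subspaces -/

lemma exists_orth_of_submodule (V : Submodule ℝ (Fin n → ℝ)) (hV : Module.finrank ℝ V = r) :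
    ∃ U : Matrix (Fin n) (Fin r) ℝ, Uᵀ * U = 1 ∧ ∀ x ∈ V, ∃ z : Fin r → ℝ, x = U *ᵥ z := by
  classical
  set ψ : (Fin n → ℝ) ≃ₗ[ℝ] EuclideanSpace ℝ (Fin n) :=
    (WithLp.linearEquiv 2 ℝ (Fin n → ℝ)).symm with hψ
  set R := V.map (ψ : (Fin n → ℝ) →ₗ[ℝ] EuclideanSpace ℝ (Fin n)) with hR
  have hq : Module.finrank ℝ R = r := by
    rw [← hV]
    exact LinearEquiv.finrank_map_eq ψ V
  set b := (stdOrthonormalBasis ℝ R).reindex (finCongr hq) with hb
  refine ⟨Matrix.of fun l i => ((b i : R) : EuclideanSpace ℝ (Fin n)).ofLp l, ?_, ?_⟩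
  · ext i j
    have h1 := (orthonormal_iff_ite.1 b.orthonormal) i j
    rw [Submodule.coe_inner, PiLp.inner_apply] at h1
    simp only [Matrix.mul_apply, Matrix.transpose_apply, Matrix.of_apply, Matrix.one_apply]
    rw [← h1]
    refine sum_congr rfl fun l _ => ?_
    simp [mul_comm]
  · intro x hx
    have hxR : ψ x ∈ R := Submodule.mem_map_of_mem hx
    refine ⟨fun i => b.repr ⟨ψ x, hxR⟩ i, ?_⟩
    have h2 := b.sum_repr ⟨ψ x, hxR⟩
    have h3 := congrArg (fun v : R => (v : EuclideanSpace ℝ (Fin n)).ofLp) h2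
    funext l
    have h4 := congrFun h3 l
    simp only [Submodule.coe_sum, Submodule.coe_smul] at h4
    have h5 : ((ψ x : EuclideanSpace ℝ (Fin n))).ofLp l = x l := rfl
    rw [← h5, ← h4]
    simp only [Matrix.mulVec, dotProduct, Matrix.of_apply]
    rw [WithLp.ofLp_sum, Finset.sum_apply]
    refine sum_congr rfl fun i _ => ?_
    simp [mul_comm]

/-! ### The second moment of a bilinear form in random signs -/

/-- coefficients of the bilinear form -/
noncomputable def bc (b : Fin n → Fin m → ℝ) (x y : Fin n → ℝ) (i j : Fin n) : ℝ :=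
  if i = j then 0 else x i * y j * gram b i j

/-- the bilinear form in random signs -/
noncomputable def bf (b : Fin n → Fin m → ℝ) (x y : Fin n → ℝ) (D : Fin n → Bool) : ℝ :=
  ∑ i, ∑ j, bc b x y i j * (sg (D i) * sg (D j))

lemma bf_symm_coeff (c : Fin n → Fin n → ℝ) (D : Fin n → Bool) :
    ∑ i, ∑ j, c i j * (sg (D i) * sg (D j)) =
      ∑ i, ∑ j, ((c i j + c j i) / 2) * (sg (D i) * sg (D j)) := by
  have h1 : ∑ i, ∑ j, c j i * (sg (D i) * sg (D j)) = ∑ i, ∑ j, c i j * (sg (D i) * sg (D j)) := by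
    rw [sum_comm]
    refine sum_congr rfl fun i _ => sum_congr rfl fun j _ => ?_
    ring
  have h2 : ∀ i j, ((c i j + c j i) / 2) * (sg (D i) * sg (D j)) =
      (1 / 2) * (c i j * (sg (D i) * sg (D j))) + (1 / 2) * (c j i * (sg (D i) * sg (D j))) := by
    intro i j; ring
  simp only [h2, sum_add_distrib, ← mul_sum]
  rw [h1]
  ring

lemma second_moment_bf (b : Fin n → Fin m → ℝ) (μ : ℝ)
    (hμ : ∀ j l, j ≠ l → |gram b j l| ≤ μ) (x y : Fin n → ℝ) :
    ∑ D : Fin n → Bool, bf b x y D ^ 2 ≤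
      2 * (Fintype.card (Fin n → Bool) : ℝ) * (μ ^ 2 * (sqn x * sqn y)) := by
  unfold bf
  simp only [bf_symm_coeff (bc b x y)]
  rw [second_moment (fun i j => (bc b x y i j + bc b x y j i) / 2)
    (fun i => by simp [bc]) (fun i j => by ring)]
  refine mul_le_mul_of_nonneg_left ?_ (by positivity)
  have h1 : ∀ i j, ((bc b x y i j + bc b x y j i) / 2) ^ 2 ≤
      (1 / 2) * bc b x y i j ^ 2 + (1 / 2) * bc b x y j i ^ 2 := by
    intro i j
    nlinarith [sq_nonneg (bc b x y i j - bc b x y j i)]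
  have h2 : ∑ i, ∑ j, ((bc b x y i j + bc b x y j i) / 2) ^ 2 ≤ ∑ i, ∑ j, bc b x y i j ^ 2 := by
    calc ∑ i, ∑ j, ((bc b x y i j + bc b x y j i) / 2) ^ 2
        ≤ ∑ i, ∑ j, ((1 / 2) * bc b x y i j ^ 2 + (1 / 2) * bc b x y j i ^ 2) :=
          sum_le_sum fun i _ => sum_le_sum fun j _ => h1 i j
      _ = (1 / 2) * (∑ i, ∑ j, bc b x y i j ^ 2) + (1 / 2) * (∑ i, ∑ j, bc b x y j i ^ 2) := by
          simp only [sum_add_distrib, ← mul_sum]
      _ = ∑ i, ∑ j, bc b x y i j ^ 2 := by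
          have : ∑ i, ∑ j, bc b x y j i ^ 2 = ∑ i, ∑ j, bc b x y i j ^ 2 := by rw [sum_comm]
          rw [this]; ring
  refine h2.trans ?_
  have h3 : ∀ i j, bc b x y i j ^ 2 ≤ μ ^ 2 * (x i ^ 2 * y j ^ 2) := by
    intro i j
    unfold bc
    by_cases h : i = j
    · rw [if_pos h]
      have : 0 ≤ μ ^ 2 * (x i ^ 2 * y j ^ 2) := by positivity
      simpa using this
    · rw [if_neg h]
      have h4 : gram b i j ^ 2 ≤ μ ^ 2 := by
        rw [← sq_abs (gram b i j)]
        exact pow_le_pow_left₀ (abs_nonneg _) (hμ i j h) 2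
      calc (x i * y j * gram b i j) ^ 2 = (x i ^ 2 * y j ^ 2) * gram b i j ^ 2 := by ring
        _ ≤ (x i ^ 2 * y j ^ 2) * μ ^ 2 := by
            exact mul_le_mul_of_nonneg_left h4 (by positivity)
        _ = μ ^ 2 * (x i ^ 2 * y j ^ 2) := by ring
  calc ∑ i, ∑ j, bc b x y i j ^ 2 ≤ ∑ i, ∑ j, μ ^ 2 * (x i ^ 2 * y j ^ 2) :=
        sum_le_sum fun i _ => sum_le_sum fun j _ => h3 i j
    _ = μ ^ 2 * (sqn x * sqn y) := by
        unfold sqn
        rw [Finset.sum_mul_sum, mul_sum]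
        exact sum_congr rfl fun i _ => by rw [mul_sum]

/-- the squared Frobenius norm of the compressed off-diagonal part of the Gram matrix -/
noncomputable def offF (b : Fin n → Fin m → ℝ) (U : Matrix (Fin n) (Fin r) ℝ)
    (D : Fin n → Bool) : ℝ := ∑ a, ∑ c, bf b (fun i => U i a) (fun i => U i c) D ^ 2

lemma sqn_col (U : Matrix (Fin n) (Fin r) ℝ) (hU : Uᵀ * U = 1) (a : Fin r) :
    sqn (fun i => U i a) = 1 := by
  have h := congrFun (congrFun hU a) a
  rw [Matrix.mul_apply, Matrix.one_apply_eq] at h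
  unfold sqn
  rw [← h]
  refine sum_congr rfl fun i _ => ?_
  rw [Matrix.transpose_apply, sq]

lemma sum_offF (b : Fin n → Fin m → ℝ) (μ : ℝ)
    (hμ : ∀ j l, j ≠ l → |gram b j l| ≤ μ) (U : Matrix (Fin n) (Fin r) ℝ) (hU : Uᵀ * U = 1) :
    ∑ D : Fin n → Bool, offF b U D ≤
      2 * (Fintype.card (Fin n → Bool) : ℝ) * (μ ^ 2 * (r : ℝ) ^ 2) := by
  unfold offF
  rw [sum_comm]
  have h1 : ∀ a : Fin r, ∑ D : Fin n → Bool, ∑ c,
      bf b (fun i => U i a) (fun i => U i c) D ^ 2 ≤
      (r : ℝ) * (2 * (Fintype.card (Fin n → Bool) : ℝ) * μ ^ 2) := by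
    intro a
    rw [sum_comm]
    calc ∑ c : Fin r, ∑ D : Fin n → Bool, bf b (fun i => U i a) (fun i => U i c) D ^ 2
        ≤ ∑ _c : Fin r, (2 * (Fintype.card (Fin n → Bool) : ℝ) * μ ^ 2) := by
          refine sum_le_sum fun c _ => ?_
          refine (second_moment_bf b μ hμ _ _).trans ?_
          rw [sqn_col U hU, sqn_col U hU]
          simp
      _ = _ := by rw [sum_const, card_univ, Fintype.card_fin, nsmul_eq_mul]
  calc ∑ a : Fin r, ∑ D : Fin n → Bool, ∑ c,
      bf b (fun i => U i a) (fun i => U i c) D ^ 2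
      ≤ ∑ _a : Fin r, (r : ℝ) * (2 * (Fintype.card (Fin n → Bool) : ℝ) * μ ^ 2) :=
        sum_le_sum fun a _ => h1 a
    _ = _ := by
        rw [sum_const, card_univ, Fintype.card_fin, nsmul_eq_mul]; ring

lemma quad_eq (b : Fin n → Fin m → ℝ) (U : Matrix (Fin n) (Fin r) ℝ) (z : Fin r → ℝ)
    (D : Fin n → Bool) :
    ∑ i, ∑ j, offc b (U *ᵥ z) i j * (sg (D i) * sg (D j)) =
      ∑ a, ∑ c, z a * z c * bf b (fun i => U i a) (fun i => U i c) D := by
  have h1 : ∀ i j, offc b (U *ᵥ z) i j * (sg (D i) * sg (D j)) =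
      ∑ a, ∑ c, z a * z c * (bc b (fun i => U i a) (fun i => U i c) i j *
        (sg (D i) * sg (D j))) := by
    intro i j
    unfold offc bc
    by_cases h : i = j
    · simp [h]
    · simp only [if_neg h, Matrix.mulVec, dotProduct]
      rw [Finset.sum_mul_sum, sum_mul, sum_mul]
      refine sum_congr rfl fun a _ => ?_
      rw [sum_mul, sum_mul]
      refine sum_congr rfl fun c _ => ?_
      ring
  simp only [h1]
  unfold bf
  simp only [mul_sum]
  calc ∑ i, ∑ j, ∑ a, ∑ c, z a * z c * (bc b (fun i => U i a) (fun i => U i c) i j *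
        (sg (D i) * sg (D j)))
      = ∑ i, ∑ a, ∑ j, ∑ c, z a * z c * (bc b (fun i => U i a) (fun i => U i c) i j *
        (sg (D i) * sg (D j))) := sum_congr rfl fun i _ => sum_comm
    _ = ∑ a, ∑ i, ∑ j, ∑ c, z a * z c * (bc b (fun i => U i a) (fun i => U i c) i j *
        (sg (D i) * sg (D j))) := sum_comm
    _ = ∑ a, ∑ i, ∑ c, ∑ j, z a * z c * (bc b (fun i => U i a) (fun i => U i c) i j *
        (sg (D i) * sg (D j))) := sum_congr rfl fun a _ => sum_congr rfl fun i _ => sum_comm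
    _ = ∑ a, ∑ c, ∑ i, ∑ j, z a * z c * (bc b (fun i => U i a) (fun i => U i c) i j *
        (sg (D i) * sg (D j))) := sum_congr rfl fun a _ => sum_comm

lemma quad_sq_le (b : Fin n → Fin m → ℝ) (U : Matrix (Fin n) (Fin r) ℝ) (z : Fin r → ℝ)
    (D : Fin n → Bool) :
    (∑ i, ∑ j, offc b (U *ᵥ z) i j * (sg (D i) * sg (D j))) ^ 2 ≤ sqn z ^ 2 * offF b U D := by
  rw [quad_eq]
  set M : Fin r × Fin r → ℝ := fun p => bf b (fun i => U i p.1) (fun i => U i p.2) D with hM
  set Z : Fin r × Fin r → ℝ := fun p => z p.1 * z p.2 with hZ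
  have h1 : ∑ a, ∑ c, z a * z c * bf b (fun i => U i a) (fun i => U i c) D =
      ∑ p : Fin r × Fin r, Z p * M p := by
    rw [Fintype.sum_prod_type]
  have h2 : offF b U D = ∑ p : Fin r × Fin r, M p ^ 2 := by
    rw [Fintype.sum_prod_type]; rfl
  have h3 : sqn z ^ 2 = ∑ p : Fin r × Fin r, Z p ^ 2 := by
    rw [Fintype.sum_prod_type]
    unfold sqn
    rw [sq (∑ i, z i ^ 2), Finset.sum_mul_sum]
    refine sum_congr rfl fun i _ => sum_congr rfl fun j _ => ?_
    simp only [hZ]; ring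
  rw [h1, h2, h3]
  exact Finset.sum_mul_sq_le_sq_mul_sq _ _ _

/-- few sign patterns are bad for a given subspace -/
lemma card_bad_r (hK : 2 ≤ K) (b : Fin n → Fin m → ℝ) (μ : ℝ)
    (hμ : ∀ j l, j ≠ l → |gram b j l| ≤ μ)
    (hμK : 2 * μ ^ 2 * (r : ℝ) ^ 2 * (K : ℝ) ^ 3 ≤ 1)
    (U : Matrix (Fin n) (Fin r) ℝ) (hU : Uᵀ * U = 1) :
    ((univ.filter fun D : Fin n → Bool => 1 / (K : ℝ) ^ 2 < offF b U D).card : ℝ) * K ≤
      (Fintype.card (Fin n → Bool) : ℝ) := by
  classical
  have hKr : (2 : ℝ) ≤ K := by exact_mod_cast hK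
  have hK0 : (0 : ℝ) < K := by linarith
  set B := univ.filter fun D : Fin n → Bool => 1 / (K : ℝ) ^ 2 < offF b U D with hB
  have hnn : ∀ D, 0 ≤ offF b U D := fun D =>
    sum_nonneg fun _ _ => sum_nonneg fun _ _ => sq_nonneg _
  have hsum : (B.card : ℝ) * (1 / (K : ℝ) ^ 2) ≤ ∑ D, offF b U D := by
    calc (B.card : ℝ) * (1 / (K : ℝ) ^ 2) = ∑ _D ∈ B, (1 / (K : ℝ) ^ 2) := by
          rw [sum_const, nsmul_eq_mul]
      _ ≤ ∑ D ∈ B, offF b U D := sum_le_sum fun D hD => (mem_filter.1 hD).2.le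
      _ ≤ ∑ D, offF b U D := sum_le_sum_of_subset_of_nonneg (subset_univ _)
          (fun D _ _ => hnn D)
  have h1 := hsum.trans (sum_offF b μ hμ U hU)
  rw [mul_one_div, div_le_iff₀ (by positivity)] at h1
  have hcard : (0 : ℝ) ≤ (Fintype.card (Fin n → Bool) : ℝ) := by positivity
  calc (B.card : ℝ) * K ≤ (2 * (Fintype.card (Fin n → Bool) : ℝ) * (μ ^ 2 * (r : ℝ) ^ 2) *
        (K : ℝ) ^ 2) * K := mul_le_mul_of_nonneg_right h1 hK0.le
    _ = (2 * μ ^ 2 * (r : ℝ) ^ 2 * (K : ℝ) ^ 3) * (Fintype.card (Fin n → Bool) : ℝ) := by ring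
    _ ≤ 1 * (Fintype.card (Fin n → Bool) : ℝ) := mul_le_mul_of_nonneg_right hμK hcard
    _ = _ := one_mul _

/-- The random matrix `Smat` is an OSI of dimension `r` with injectivity `1` (hence any
`1 - ε`). -/
lemma isOSI_Smat_r [NeZero K] (hK : 2 ≤ K) (b : Fin n → Fin m → ℝ) (hb : ∀ j, gram b j j = 1)
    (μ : ℝ) (hμ : ∀ j l, j ≠ l → |gram b j l| ≤ μ)
    (hμK : 2 * μ ^ 2 * (r : ℝ) ^ 2 * (K : ℝ) ^ 3 ≤ 1)
    (δ : ℝ) (hδ : 2 ≤ δ * K) (ε : ℝ) (hε : 0 ≤ ε) :
    IsOSI (unif (Smp K n)) (Smat K b) r (1 - ε) δ where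
  measurable i j := measurable_of_finite _
  integrable x := Integrable.of_finite
  isotropy x := by
    rw [unif_integral, sum_Smp_isotropy hK b hb x, mul_div_assoc, mul_comm, div_mul_cancel₀]
    have : (0 : ℝ) < Fintype.card (Smp K n) := by exact_mod_cast Fintype.card_pos
    exact this.ne'
  injectivity V hV := by
    classical
    obtain ⟨U, hU, hUV⟩ := exists_orth_of_submodule V hV
    have hKr : (2 : ℝ) ≤ K := by exact_mod_cast hK
    have hKpos : (0 : ℝ) < K := by linarith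
    have hK1 : (0 : ℝ) < (K : ℝ) - 1 := by linarith
    set BD := univ.filter fun D : Fin n → Bool => 1 / (K : ℝ) ^ 2 < offF b U D with hBD
    set bad : Finset (Smp K n) := (({(0 : Fin K)} : Finset (Fin K)) ×ˢ (univ : Finset (Fin n → Bool)))
      ∪ ((univ : Finset (Fin K)) ×ˢ BD) with hbad
    refine unif_real_ge _ _ bad ?_ δ ?_
    · intro w hw
      rw [hbad, mem_union, mem_product, mem_product] at hw
      push Not at hw
      have h1 : (w.1 : ℕ) ≠ 0 := by
        intro h
        apply hw.1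
        · rw [mem_singleton]
          exact Fin.ext (by simpa using h)
        · exact mem_univ _
      have h2 : w.2 ∉ BD := hw.2 (mem_univ _)
      have h2' : offF b U w.2 ≤ 1 / (K : ℝ) ^ 2 := by
        rw [hBD, mem_filter] at h2
        push Not at h2
        exact h2 (mem_univ _)
      rw [Set.mem_ofPred_eq]
      intro x hx
      obtain ⟨z, rfl⟩ := hUV x hx
      set x := U *ᵥ z with hxdef
      have hxz : sqn x = sqn z := sqn_mulVec_orth U hU z
      have hz0 : 0 ≤ sqn z := sqn_nonneg z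
      rw [sqn_Smat hK b hb w h1 x]
      set Q := ∑ i, ∑ j, offc b x i j * (sg (w.2 i) * sg (w.2 j)) with hQ
      have h3 : Q ^ 2 ≤ sqn z ^ 2 * offF b U w.2 := quad_sq_le b U z w.2
      have h4 : Q ^ 2 ≤ (sqn z / K) ^ 2 := by
        calc Q ^ 2 ≤ sqn z ^ 2 * (1 / (K : ℝ) ^ 2) :=
              h3.trans (mul_le_mul_of_nonneg_left h2' (by positivity))
          _ = (sqn z / K) ^ 2 := by ring
      have h5 : -(sqn z / K) ≤ Q := (abs_le_of_sq_le_sq' h4 (by positivity)).1
      have h6 : ((K : ℝ) / ((K : ℝ) - 1)) * (sqn x + Q) ≥ sqn x := by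
        have h7 : sqn z * ((K : ℝ) - 1) ≤ K * (sqn z + Q) := by
          have h8 : -(sqn z) ≤ K * Q := by
            have := mul_le_mul_of_nonneg_left h5 hKpos.le
            calc -(sqn z) = K * (-(sqn z / K)) := by field_simp
              _ ≤ K * Q := this
          nlinarith
        rw [ge_iff_le, div_mul_eq_mul_div, le_div_iff₀ hK1, hxz]
        exact h7
      have h9 : 0 ≤ ε * sqn x := mul_nonneg hε (sqn_nonneg x)
      nlinarith
    · have hc1 : (bad.card : ℝ) ≤ (Fintype.card (Fin n → Bool) : ℝ) + K * (BD.card : ℝ) := by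
        have : bad.card ≤ Fintype.card (Fin n → Bool) + K * BD.card := by
          refine (card_union_le _ _).trans ?_
          rw [card_product, card_product]
          simp
        exact_mod_cast this
      have hc2 := card_bad_r hK b μ hμ hμK U hU
      rw [card_Smp]
      have hcard : (0 : ℝ) ≤ (Fintype.card (Fin n → Bool) : ℝ) := by positivity
      have : (bad.card : ℝ) ≤ 2 * (Fintype.card (Fin n → Bool) : ℝ) := by
        calc (bad.card : ℝ) ≤ (Fintype.card (Fin n → Bool) : ℝ) + K * (BD.card : ℝ) := hc1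
          _ ≤ (Fintype.card (Fin n → Bool) : ℝ) + (Fintype.card (Fin n → Bool) : ℝ) := by
              have := hc2
              linarith [mul_comm (K : ℝ) (BD.card : ℝ)]
          _ = _ := by ring
      calc (bad.card : ℝ) ≤ 2 * (Fintype.card (Fin n → Bool) : ℝ) := this
        _ ≤ (δ * K) * (Fintype.card (Fin n → Bool) : ℝ) :=
            mul_le_mul_of_nonneg_right hδ hcard
        _ = _ := by ring

/-! ### The example -/

/-- the rows of the test matrix: `q` orthonormal rows and the rows `brow` in other columns -/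
noncomputable def brw (q : ℕ) (s : ℝ) (w : Fin N → Fin k → ℝ) :
    Fin (q + (N + 1)) → Fin (q + (k + 1)) → ℝ :=
  Fin.append (fun i : Fin q => Fin.append (Pi.single i 1 : Fin q → ℝ) (fun _ => (0 : ℝ)))
    (fun j : Fin (N + 1) => Fin.append (fun _ : Fin q => (0 : ℝ)) (brow s w j))

/-- the singular values of the example -/
noncomputable def av (q N : ℕ) : Fin (q + (N + 1)) → ℝ :=
  Fin.append (fun _ : Fin q => Real.sqrt N) (avec N)

lemma gram_brw_ll (s : ℝ) (w : Fin N → Fin k → ℝ) (i j : Fin q) :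
    gram (brw q s w) (Fin.castAdd _ i) (Fin.castAdd _ j) = if i = j then 1 else 0 := by
  unfold H321R2.OSI.gram brw
  rw [Fin.sum_univ_add]
  simp only [Fin.append_left, Fin.append_right, mul_zero, sum_const_zero, add_zero]
  simp only [Pi.single_apply, ite_mul, one_mul, zero_mul, sum_ite_eq', mem_univ, if_true]

lemma gram_brw_lr (s : ℝ) (w : Fin N → Fin k → ℝ) (i : Fin q) (j : Fin (N + 1)) :
    gram (brw q s w) (Fin.castAdd _ i) (Fin.natAdd _ j) = 0 := by
  unfold H321R2.OSI.gram brw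
  rw [Fin.sum_univ_add]
  simp

lemma gram_brw_rr (s : ℝ) (w : Fin N → Fin k → ℝ) (i j : Fin (N + 1)) :
    gram (brw q s w) (Fin.natAdd _ i) (Fin.natAdd _ j) = gram (brow s w) i j := by
  unfold H321R2.OSI.gram brw
  rw [Fin.sum_univ_add]
  simp only [Fin.append_left, Fin.append_right, mul_zero, sum_const_zero, zero_add]

lemma gram_brw_self (s : ℝ) (hs : s ^ 2 ≤ 1) (w : Fin N → Fin k → ℝ)
    (hw : ∀ j, ∑ i, w j i * w j i = 1) (j : Fin (q + (N + 1))) :
    gram (brw q s w) j j = 1 := by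
  refine Fin.addCases (fun i => ?_) (fun i => ?_) j
  · rw [gram_brw_ll, if_pos rfl]
  · rw [gram_brw_rr]
    refine Fin.cases ?_ (fun l => ?_) i
    · exact gram_brow_zero s w
    · rw [gram_brow_succ s hs w, hw]
      ring

lemma gram_brw_off (s : ℝ) (hs0 : 0 < s) (hs : s ≤ 1) (w : Fin N → Fin k → ℝ)
    (hw2 : ∀ j l, j ≠ l → |∑ i, w j i * w l i| ≤ s) (j l : Fin (q + (N + 1))) (hjl : j ≠ l) :
    |gram (brw q s w) j l| ≤ 2 * s := by
  have hs2 : s ^ 2 ≤ s := by nlinarith
  have key : ∀ i i' : Fin (N + 1), i ≠ i' → |gram (brow s w) i i'| ≤ 2 * s := by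
    intro i i' hii
    induction i using Fin.cases with
    | zero =>
      induction i' using Fin.cases with
      | zero => exact absurd rfl hii
      | succ b =>
        rw [gram_brow_zero_succ, abs_of_pos hs0]; linarith
    | succ a =>
      induction i' using Fin.cases with
      | zero =>
        rw [gram_symm, gram_brow_zero_succ, abs_of_pos hs0]; linarith
      | succ b =>
        have hab : a ≠ b := fun h => hii (by rw [h])
        rw [gram_brow_succ s (by nlinarith) w]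
        have h1 := hw2 a b hab
        have h2 : |(1 - s ^ 2) * ∑ i, w a i * w b i| ≤ s := by
          rw [abs_mul, abs_of_nonneg (by nlinarith : (0 : ℝ) ≤ 1 - s ^ 2)]
          have h3 : 0 ≤ |∑ i, w a i * w b i| := abs_nonneg _
          nlinarith [sq_nonneg s]
        calc |s ^ 2 + (1 - s ^ 2) * ∑ i, w a i * w b i| ≤ |s ^ 2| + |(1 - s ^ 2) *
              ∑ i, w a i * w b i| := abs_add_le _ _
          _ ≤ s + s := by
              refine add_le_add ?_ h2
              rw [abs_of_nonneg (sq_nonneg s)]; exact hs2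
          _ = 2 * s := by ring
  induction j using Fin.addCases with
  | left a =>
    induction l using Fin.addCases with
    | left b =>
      have hab : a ≠ b := fun h => hjl (by rw [h])
      rw [gram_brw_ll, if_neg hab, abs_zero]; linarith
    | right b =>
      rw [gram_brw_lr, abs_zero]; linarith
  | right a =>
    induction l using Fin.addCases with
    | left b =>
      rw [gram_symm, gram_brw_lr, abs_zero]; linarith
    | right b =>
      have hab : a ≠ b := fun h => hjl (by rw [h])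
      rw [gram_brw_rr]
      exact key a b hab

lemma bestErr_le_r (q N : ℕ) : bestErr (diagonal (av q N)) (q + 1) ≤ Real.sqrt N := by
  unfold bestErr
  refine csInf_le ⟨0, ?_⟩ ⟨diagonal (Fin.append (fun _ : Fin q => Real.sqrt N)
    (Fin.cons (Real.sqrt N) (fun _ => 0) : Fin (N + 1) → ℝ)), ?_, ?_⟩
  · rintro e ⟨B, _, rfl⟩
    exact Real.sqrt_nonneg _
  · rw [Matrix.rank_diagonal]
    classical
    rw [Fintype.card_subtype]
    have hsub : (univ.filter fun i : Fin (q + (N + 1)) =>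
        (Fin.append (fun _ : Fin q => Real.sqrt N)
          (Fin.cons (Real.sqrt N) (fun _ => 0) : Fin (N + 1) → ℝ)) i ≠ 0) ⊆
        (univ : Finset (Fin (q + 1))).image (Fin.castLE (by omega)) := by
      intro i hi
      rw [mem_filter] at hi
      rw [mem_image]
      by_cases h : (i : ℕ) < q + 1
      · exact ⟨⟨i, h⟩, mem_univ _, Fin.ext rfl⟩
      · exfalso
        apply hi.2
        obtain ⟨j, hj⟩ : ∃ j : Fin N, i = Fin.natAdd q j.succ := by
          refine ⟨⟨(i : ℕ) - (q + 1), by omega⟩, Fin.ext ?_⟩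
          simp only [Fin.val_natAdd, Fin.val_succ]
          omega
        rw [hj, Fin.append_right, Fin.cons_succ]
    refine (card_le_card hsub).trans (card_image_le.trans ?_)
    simp
  · unfold frob
    congr 1
    rw [diagonal_sub]
    have h1 : ∀ i j : Fin (q + (N + 1)), ((diagonal fun i => av q N i -
        (Fin.append (fun _ : Fin q => Real.sqrt N)
          (Fin.cons (Real.sqrt N) (fun _ => 0) : Fin (N + 1) → ℝ)) i :
          Matrix (Fin (q + (N + 1))) (Fin (q + (N + 1))) ℝ) i j) ^ 2 =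
        if i = j then (Fin.append (fun _ : Fin q => (0 : ℝ))
          (Fin.cons 0 (fun _ => 1) : Fin (N + 1) → ℝ)) j else 0 := by
      intro i j
      rw [Matrix.diagonal_apply]
      by_cases h : i = j
      · subst h
        simp only [if_true, av]
        refine Fin.addCases (fun l => ?_) (fun l => ?_) i
        · simp [Fin.append_left]
        · simp only [Fin.append_right, avec]
          refine Fin.cases ?_ (fun l' => ?_) l
          · simp
          · simp
      · simp [h]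
    simp only [h1, sum_ite_eq, mem_univ, if_true]
    rw [Fin.sum_univ_add]
    simp only [Fin.append_left, Fin.append_right, sum_const_zero, zero_add]
    rw [Fin.sum_univ_succ]
    simp

/-- Key lower bound: the direction number `q` is captured badly. -/
lemma one_sub_proj (s : ℝ) (hs1 : s ≤ 1) (hs0 : 0 < s)
    (w : Fin N → Fin k → ℝ) (hw : ∀ i, ∑ j, w j i = 0) (hN : 0 < N)
    (ω : Smp K (q + (N + 1))) (hω : (ω.1 : ℕ) ≠ 0) :
    s ^ 2 / 2 ≤ 1 - proj (diagonal (av q N) * Smat K (brw q s w) ω)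
      (Fin.natAdd q 0) (Fin.natAdd q 0) := by
  set κ := Real.sqrt ((K : ℝ) / ((K : ℝ) - 1)) with hκ
  set M := diagonal (av q N) * Smat K (brw q s w) ω with hM
  set P := proj M with hP
  set o : Fin (q + (N + 1)) := Fin.natAdd q 0 with ho
  set y : Fin (k + 1) → ℝ := fun l => pinv M (Fin.natAdd q l) o with hy
  have hPi0 : P * P = P := proj_idem M
  have hPs0 : Pᵀ = P := proj_symm M
  have hRs : (1 - P)ᵀ = 1 - P := by rw [Matrix.transpose_sub, hPs0, Matrix.transpose_one]
  have hRi : (1 - P) * (1 - P) = 1 - P := by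
    rw [Matrix.sub_mul, Matrix.mul_sub, Matrix.mul_sub, hPi0]
    simp
  have h1 : 1 - P o o = ∑ i, (1 - P) i o ^ 2 := by
    rw [sum_col_sq_idem (1 - P) hRs hRi o, Matrix.sub_apply, Matrix.one_apply_eq]
  have hMent : ∀ (i : Fin (N + 1)) l, M (Fin.natAdd q i) l =
      avec N i * (κ * (sg (ω.2 (Fin.natAdd q i)) * brw q s w (Fin.natAdd q i) l)) := by
    intro i l
    rw [hM, Matrix.diagonal_mul]
    simp [av, Smat, hω, hκ, Fin.append_right]
  have hPi : ∀ i : Fin (N + 1), P (Fin.natAdd q i) o = ∑ l : Fin (k + 1),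
      (avec N i * (κ * (sg (ω.2 (Fin.natAdd q i)) * brow s w i l))) * y l := by
    intro i
    rw [hP, proj, Matrix.mul_apply, Fin.sum_univ_add]
    simp only [hMent, brw, Fin.append_right, Fin.append_left, mul_zero, zero_mul,
      sum_const_zero, zero_add]
    rfl
  set u := κ * (sg (ω.2 o) * y 0) with hu
  have hP0 : P o o = Real.sqrt N * u := by
    rw [ho, hPi, Fin.sum_univ_succ]
    simp only [avec, brow, Fin.cons_zero, Fin.cons_succ, mul_zero, zero_mul, sum_const_zero,
      add_zero, mul_one]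
    rw [hu]; ring
  set β : Fin N → ℝ := fun j => Real.sqrt (1 - s ^ 2) * ∑ i, w j i * y i.succ with hβ
  have hPs : ∀ j : Fin N, P (Fin.natAdd q j.succ) o =
      κ * sg (ω.2 (Fin.natAdd q j.succ)) * (s * y 0 + β j) := by
    intro j
    rw [hPi, Fin.sum_univ_succ]
    simp only [avec, brow, Fin.cons_zero, Fin.cons_succ]
    rw [hβ]
    simp only
    rw [mul_add, mul_sum, mul_sum]
    congr 1
    · ring
    · refine sum_congr rfl fun i _ => ?_
      ring
  have hβsum : ∑ j, β j = 0 := by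
    rw [hβ]
    simp only
    rw [← mul_sum, sum_comm]
    have : ∀ i, ∑ j, w j i * y (Fin.succ i) = 0 := by
      intro i
      rw [← sum_mul, hw, zero_mul]
    simp [this]
  have hsum : ∑ j : Fin N, (1 - P) (Fin.natAdd q j.succ) o ^ 2 ≥ N * s ^ 2 * u ^ 2 := by
    have h2 : ∀ j : Fin N, (1 - P) (Fin.natAdd q j.succ) o ^ 2 =
        κ ^ 2 * (s * y 0 + β j) ^ 2 := by
      intro j
      have hne : (Fin.natAdd q j.succ : Fin (q + (N + 1))) ≠ o := by
        rw [ho]
        intro h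
        have := congrArg Fin.val h
        simp at this
      rw [Matrix.sub_apply, hPs, Matrix.one_apply_ne hne]
      have := sg_mul_self (ω.2 (Fin.natAdd q j.succ))
      calc (0 - κ * sg (ω.2 (Fin.natAdd q j.succ)) * (s * y 0 + β j)) ^ 2
          = κ ^ 2 * (sg (ω.2 (Fin.natAdd q j.succ)) * sg (ω.2 (Fin.natAdd q j.succ))) *
            (s * y 0 + β j) ^ 2 := by ring
        _ = _ := by rw [this, mul_one]
    simp only [h2]
    have h3 : ∑ j, κ ^ 2 * (s * y 0 + β j) ^ 2 =
        κ ^ 2 * (N * (s * y 0) ^ 2 + ∑ j, β j ^ 2) := by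
      rw [← mul_sum]
      congr 1
      have : ∀ j, (s * y 0 + β j) ^ 2 = (s * y 0) ^ 2 + 2 * (s * y 0) * β j + β j ^ 2 := by
        intro j; ring
      simp only [this, sum_add_distrib, ← mul_sum, hβsum, mul_zero, add_zero, sum_const,
        card_univ, Fintype.card_fin, nsmul_eq_mul]
    rw [h3]
    have h4 : (u : ℝ) ^ 2 = κ ^ 2 * y 0 ^ 2 := by
      rw [hu]
      have := sg_mul_self (ω.2 o)
      calc (κ * (sg (ω.2 o) * y 0)) ^ 2 = κ ^ 2 * (sg (ω.2 o) * sg (ω.2 o)) * y 0 ^ 2 := by ring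
        _ = _ := by rw [this, mul_one]
    rw [h4]
    have h5 : 0 ≤ κ ^ 2 * ∑ j, β j ^ 2 :=
      mul_nonneg (sq_nonneg _) (sum_nonneg fun _ _ => sq_nonneg _)
    nlinarith
  have hge : (1 - P o o) ^ 2 + ∑ j : Fin N, (1 - P) (Fin.natAdd q j.succ) o ^ 2 ≤
      ∑ i, (1 - P) i o ^ 2 := by
    rw [Fin.sum_univ_add, Fin.sum_univ_succ (n := N)]
    have h2 : 0 ≤ ∑ i : Fin q, (1 - P) (Fin.castAdd (N + 1) i) o ^ 2 :=
      sum_nonneg fun _ _ => sq_nonneg _
    have h3 : (1 - P) (Fin.natAdd q 0) o = 1 - P o o := by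
      rw [← ho, Matrix.sub_apply, Matrix.one_apply_eq]
    rw [h3]
    linarith
  rw [h1]
  refine le_trans ?_ hge
  rw [hP0]
  have hNr : (0 : ℝ) < N := by exact_mod_cast hN
  set v := Real.sqrt N * u with hv
  have hv2 : v ^ 2 = N * u ^ 2 := by
    rw [hv, mul_pow, Real.sq_sqrt hNr.le]
  have h6 : N * s ^ 2 * u ^ 2 = s ^ 2 * v ^ 2 := by rw [hv2]; ring
  rw [h6] at hsum
  have h7 : s ^ 2 / 2 ≤ (1 - v) ^ 2 + s ^ 2 * v ^ 2 := by
    have h8 : s ^ 2 ≤ 1 := by nlinarith
    have h9 : 0 < s ^ 2 := by positivity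
    have h10 : 0 ≤ ((1 + s ^ 2) * v - 1) ^ 2 := sq_nonneg _
    have h11 : (1 + s ^ 2) * ((1 - v) ^ 2 + s ^ 2 * v ^ 2) - s ^ 2 =
        ((1 + s ^ 2) * v - 1) ^ 2 := by ring
    have h12 : s ^ 2 ≤ (1 + s ^ 2) * ((1 - v) ^ 2 + s ^ 2 * v ^ 2) := by linarith
    have h13 : (1 + s ^ 2) * ((1 - v) ^ 2 + s ^ 2 * v ^ 2) ≤
        2 * ((1 - v) ^ 2 + s ^ 2 * v ^ 2) := by
      apply mul_le_mul_of_nonneg_right (by linarith)
      positivity
    linarith
  linarith

lemma sum_av_sq (q N : ℕ) : (2 : ℝ) * N ≤ ∑ j, av q N j ^ 2 := by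
  rw [Fin.sum_univ_add]
  simp only [av, Fin.append_left, Fin.append_right]
  rw [sum_avec_sq]
  have : 0 ≤ ∑ _j : Fin q, Real.sqrt (N : ℝ) ^ 2 := sum_nonneg fun _ _ => sq_nonneg _
  linarith

/-- The error of the randomized SVD in the example, for every outcome. -/
lemma err_lower_r (s : ℝ) (hs1 : s ≤ 1) (hs0 : 0 < s)
    (w : Fin N → Fin k → ℝ) (hw : ∀ i, ∑ j, w j i = 0) (hN : 0 < N)
    (hk : ((q : ℝ) + k + 1) ≤ N * s ^ 2 / 4) (ω : Smp K (q + (N + 1))) :
    (N : ℝ) * (1 + s ^ 2 / 4) ≤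
      frob (diagonal (av q N) - rsvd (diagonal (av q N)) (Smat K (brw q s w) ω)) ^ 2 := by
  have hNr : (0 : ℝ) < N := by exact_mod_cast hN
  have hs2 : s ^ 2 ≤ 1 := by nlinarith
  by_cases hω : (ω.1 : ℕ) = 0
  · have h0 : rsvd (diagonal (av q N)) (Smat K (brw q s w) ω) = 0 := by
      unfold rsvd
      rw [Smat_zero _ _ hω]
      simp
    rw [h0, sub_zero, frob_sq]
    have h1 : ∀ i j : Fin (q + (N + 1)),
        (diagonal (av q N) : Matrix (Fin (q + (N+1))) (Fin (q + (N+1))) ℝ) i j ^ 2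
        = if i = j then av q N j ^ 2 else 0 := by
      intro i j
      rw [Matrix.diagonal_apply]
      by_cases h : i = j
      · subst h; simp
      · simp [h]
    simp only [h1, sum_ite_eq, mem_univ, if_true]
    have := sum_av_sq q N
    nlinarith
  · set M := diagonal (av q N) * Smat K (brw q s w) ω with hM
    have h1 : diagonal (av q N) - rsvd (diagonal (av q N)) (Smat K (brw q s w) ω) =
        diagonal (av q N) - proj M * diagonal (av q N) := rfl
    rw [h1, frob_err_diag (av q N) (proj M) (proj_symm M) (proj_idem M), Fin.sum_univ_add,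
      Fin.sum_univ_succ]
    simp only [av, Fin.append_left, Fin.append_right]
    simp only [avec, Fin.cons_zero, Fin.cons_succ, one_pow, one_mul]
    rw [Real.sq_sqrt hNr.le, sum_sub_distrib]
    simp only [sum_const, card_univ, Fintype.card_fin, nsmul_eq_mul, mul_one]
    have h2 := one_sub_proj (q := q) s hs1 hs0 w hw hN ω hω
    rw [← hM] at h2
    have h3 := trace_proj_le M
    rw [Matrix.trace, Fin.sum_univ_add, Fin.sum_univ_succ] at h3
    simp only [Matrix.diag_apply] at h3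
    have h4 := diag_idem_nonneg (proj M) (proj_symm M) (proj_idem M) (Fin.natAdd q 0)
    have h4' : 0 ≤ ∑ i : Fin q, proj M (Fin.castAdd (N + 1) i) (Fin.castAdd (N + 1) i) :=
      sum_nonneg fun i _ => diag_idem_nonneg (proj M) (proj_symm M) (proj_idem M) _
    have h4'' : 0 ≤ ∑ i : Fin q, (N : ℝ) *
        (1 - proj M (Fin.castAdd (N + 1) i) (Fin.castAdd (N + 1) i)) := by
      refine sum_nonneg fun i _ => mul_nonneg hNr.le ?_
      have := diag_idem_le_one (proj M) (proj_symm M) (proj_idem M) (Fin.castAdd (N + 1) i)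
      linarith
    push_cast at h3
    have h5 : (N : ℝ) * (s ^ 2 / 2) ≤ N * (1 - proj M (Fin.natAdd q 0) (Fin.natAdd q 0)) :=
      mul_le_mul_of_nonneg_left h2 hNr.le
    nlinarith

end Pool.Agent.V8H60.OSIr
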